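import Pool.Agent.Helper72.MK.GoalsT

/-! Packet MK-LOG1: logarithms on compact contractible spaces. -/

open Set Filter Topology

namespace Pool.Agent.Helper88.MK

open Pool.Agent.Helper72.MK

theorem log1 : LOG1Stmt := by
  intro X _ _ _ f hf hne
  obtain ⟨y, ⟨H⟩⟩ := id_nullhomotopic X
  set F : unitInterval × X → ℂ := fun p => f (H p) with hF
  have hFc : Continuous F := hf.comp (map_continuous H)
  have hF0 : ∀ p, F p ≠ 0 := fun p => hne _
  have hne' : (Set.univ : Set (unitInterval × X)).Nonempty := ⟨(0, y), trivial⟩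
  obtain ⟨p0, -, hp0⟩ := isCompact_univ.exists_isMinOn hne' hFc.norm.continuousOn
  have hm : 0 < ‖F p0‖ := norm_pos_iff.mpr (hF0 p0)
  have hmin : ∀ p, ‖F p0‖ ≤ ‖F p‖ := fun p => hp0 (Set.mem_univ p)
  have huc : UniformContinuous F := CompactSpace.uniformContinuous_of_continuous hFc
  rw [Metric.uniformContinuous_iff] at huc
  obtain ⟨δ, hδ, hδ'⟩ := huc ‖F p0‖ hm
  obtain ⟨N, hN⟩ := exists_nat_gt (1 / δ)
  have hNpos : (0 : ℝ) < N := lt_trans (by positivity) hN
  have hN1 : 1 / (N : ℝ) < δ := by
    rw [div_lt_iff₀ hNpos]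
    rw [div_lt_iff₀ hδ] at hN
    linarith
  set t : ℕ → unitInterval := fun j => Set.projIcc (0 : ℝ) 1 zero_le_one ((j : ℝ) / N) with ht
  have htd : ∀ j, dist (t j) (t (j + 1)) < δ := by
    intro j
    rw [Subtype.dist_eq, Real.dist_eq]
    have h1 := abs_projIcc_sub_projIcc (a := (0 : ℝ)) (b := 1) (c := (j : ℝ) / N)
      (d := ((j + 1 : ℕ) : ℝ) / N) zero_le_one
    refine lt_of_le_of_lt h1 ?_
    have : (j : ℝ) / N - ((j + 1 : ℕ) : ℝ) / N = -(1 / N) := by
      push_cast
      field_simp
      ring
    rw [this, abs_neg, abs_of_pos (by positivity)]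
    exact hN1
  have ht0 : t 0 = 0 := by
    apply Subtype.ext
    simp [ht, Set.projIcc]
  have htN : t N = 1 := by
    apply Subtype.ext
    simp [ht, Set.projIcc, hNpos.ne']
  have hr : ∀ j x, F (t j, x) / F (t (j + 1), x) ∈ Complex.slitPlane := by
    intro j x
    have h1 : dist (F (t j, x)) (F (t (j + 1), x)) < ‖F p0‖ := by
      apply hδ'
      rw [Prod.dist_eq]
      simp only [dist_self]
      rw [max_eq_left dist_nonneg]
      exact htd j
    have h2 : ‖F (t j, x) / F (t (j + 1), x) - 1‖ < 1 := by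
      rw [div_sub_one (hF0 _), norm_div, div_lt_one (norm_pos_iff.mpr (hF0 _))]
      rw [dist_eq_norm] at h1
      exact lt_of_lt_of_le h1 (hmin _)
    have h3 := Complex.mem_slitPlane_of_norm_lt_one h2
    simpa using h3
  refine ⟨fun x => Complex.log (f y) +
    ∑ j ∈ Finset.range N, Complex.log (F (t j, x) / F (t (j + 1), x)), ?_, ?_⟩
  · apply continuous_const.add
    apply continuous_finsetSum
    intro j _
    apply Continuous.clog _ (hr j)
    apply Continuous.div
    · exact hFc.comp (by fun_prop)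
    · exact hFc.comp (by fun_prop)
    · exact fun x => hF0 _
  · intro x
    rw [Complex.exp_add, Complex.exp_log (hne y), Complex.exp_sum]
    have h1 : ∀ j ∈ Finset.range N, Complex.exp (Complex.log (F (t j, x) / F (t (j + 1), x)))
        = F (t j, x) / F (t (j + 1), x) := fun j _ =>
      Complex.exp_log (div_ne_zero (hF0 _) (hF0 _))
    have h4 : ∀ n, ∏ j ∈ Finset.range n, F (t j, x) / F (t (j + 1), x)
        = F (t 0, x) / F (t n, x) := by
      intro n
      induction n with
      | zero => simp [hF0]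
      | succ n ih =>
        rw [Finset.prod_range_succ, ih]
        have := hF0 (t n, x)
        have := hF0 (t (n + 1), x)
        field_simp
    rw [Finset.prod_congr rfl h1, h4, ht0, htN]
    have h2 : F (0, x) = f x := by
      simp [hF]
    have h3 : F (1, x) = f y := by
      simp [hF]
    rw [h2, h3]
    field_simp [hne y]

end Pool.Agent.Helper88.MK
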